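import Pool.Agent.helper92.VT.Spec

/-!
# Row vt:NVP: from exponential sums to VNP
-/

set_option autoImplicit false

universe u

namespace Pool.Agent.helper92.VT

open MvPolynomial Pool.Agent.helper92.VC

section calc_

variable {τ : Type} {k : Type u} [Field k]

theorem NVP_one_sub (S : Set (MvPolynomial τ k)) (i : τ) : CST_E S {1 - (X i : MvPolynomial τ k)} 2 := by
  have h1 := CST_E_mul (CST_E_C S (-1 : k)) (CST_E_X S i)
  have h2 := CST_E_add (CST_E_C S (1 : k)) h1
  have e : (C (1 : k) + C (-1 : k) * X i : MvPolynomial τ k) = 1 - X i := by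
    rw [C_1, map_neg, C_1]
    ring
  rw [e] at h2
  exact h2

theorem NVP_prod {S : Set (MvPolynomial τ k)} {ι : Type} (m : Finset ι)
    (g : ι → MvPolynomial τ k) (r : ℕ) (h : ∀ i ∈ m, CST_E S {g i} r) :
    CST_E S {∏ i ∈ m, g i} (m.card * (r + 1)) := by
  classical
  induction m using Finset.induction_on with
  | empty =>
    have h1 := CST_E_C S (1 : k)
    rw [C_1] at h1
    simpa using h1
  | insert a s ha ih =>
    have h1 := CST_E_mul (h a (Finset.mem_insert_self a s))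
      (ih fun i hi => h i (Finset.mem_insert_of_mem hi))
    rw [Finset.prod_insert ha]
    refine CST_E_mono h1 subset_rfl subset_rfl ?_
    rw [Finset.card_insert_of_notMem ha, Nat.succ_mul]
    omega

/-- the one-hot condition -/
noncomputable def NVP_OH {A : Type*} [CommRing A] {d : ℕ} (a : Fin (d + 1) → A) : A :=
  ∑ j, a j * ∏ j' ∈ Finset.univ.erase j, (1 - a j')

/-- the polynomial -/
noncomputable def NVP_G {v d q : ℕ} (x : Fin v → τ) (y : Fin v × Fin (d + 1) → τ) (z : Fin q → τ)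
    (Φ : MvPolynomial ((Fin v × Fin (d + 1)) ⊕ Fin q) k) : MvPolynomial τ k :=
  (∏ i, (NVP_OH (fun j => (X (y (i, j)) : MvPolynomial τ k)) *
    ∑ j : Fin (d + 1), X (y (i, j)) * X (x i) ^ (j : ℕ))) * rename (Sum.elim y z) Φ

theorem NVP_pow (S : Set (MvPolynomial τ k)) (i : τ) (j d : ℕ) (h : j ≤ d) :
    CST_E S {(X i : MvPolynomial τ k) ^ j} d := by
  have h1 := NVP_prod (S := S) (Finset.range j) (fun _ => (X i : MvPolynomial τ k)) 0
    (fun _ _ => CST_E_X S i)
  rw [Finset.prod_const, Finset.card_range] at h1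
  exact CST_E_mono h1 subset_rfl subset_rfl (by omega)

theorem NVP_cost (hSUB : SUB_stmt.{u}) {v d q L : ℕ} (x : Fin v → τ) (y : Fin v × Fin (d + 1) → τ)
    (z : Fin q → τ) (Φ : MvPolynomial ((Fin v × Fin (d + 1)) ⊕ Fin q) k) (hΦ : ComputedIn Φ L) :
    ComputedIn (NVP_G x y z Φ)
      (v * (((d + 1) * (3 * (d + 1) + 2) + (d + 1) * (d + 2) + 1) + 1) + L + 1) := by
  have h1 : ∀ i : Fin v, CST_E (∅ : Set (MvPolynomial τ k))
      {NVP_OH (fun j => (X (y (i, j)) : MvPolynomial τ k))} ((d + 1) * (3 * (d + 1) + 2)) := by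
    intro i
    have h2 : ∀ j ∈ (Finset.univ : Finset (Fin (d + 1))), CST_E (∅ : Set (MvPolynomial τ k))
        {(X (y (i, j)) : MvPolynomial τ k) *
          ∏ j' ∈ Finset.univ.erase j, (1 - X (y (i, j')))} (3 * (d + 1) + 1) := by
      intro j _
      have h3 := NVP_prod (S := (∅ : Set (MvPolynomial τ k))) (Finset.univ.erase j)
        (fun j' => 1 - (X (y (i, j')) : MvPolynomial τ k)) 2 (fun j' _ => NVP_one_sub _ _)
      have h4 := CST_E_mul (CST_E_X (∅ : Set (MvPolynomial τ k)) (y (i, j))) h3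
      refine CST_E_mono h4 subset_rfl subset_rfl ?_
      have h5 : (Finset.univ.erase j).card ≤ d + 1 := by
        refine (Finset.card_le_univ _).trans ?_
        rw [Fintype.card_fin]
      omega
    have h6 := CST_E_sum (S := (∅ : Set (MvPolynomial τ k))) Finset.univ _ _ h2
    rw [Finset.card_univ, Fintype.card_fin] at h6
    exact CST_E_mono h6 subset_rfl subset_rfl (by rw [show 3 * (d + 1) + 1 + 1 = 3 * (d + 1) + 2 by omega])
  have h2 : ∀ i : Fin v, CST_E (∅ : Set (MvPolynomial τ k))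
      {∑ j : Fin (d + 1), (X (y (i, j)) : MvPolynomial τ k) * X (x i) ^ (j : ℕ)}
      ((d + 1) * (d + 2)) := by
    intro i
    have h3 : ∀ j ∈ (Finset.univ : Finset (Fin (d + 1))), CST_E (∅ : Set (MvPolynomial τ k))
        {(X (y (i, j)) : MvPolynomial τ k) * X (x i) ^ (j : ℕ)} (d + 1) := by
      intro j _
      have h4 := CST_E_mul (CST_E_X (∅ : Set (MvPolynomial τ k)) (y (i, j)))
        (NVP_pow ∅ (x i) (j : ℕ) d (by have := j.2; omega))
      exact CST_E_mono h4 subset_rfl subset_rfl (by omega)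
    have h6 := CST_E_sum (S := (∅ : Set (MvPolynomial τ k))) Finset.univ _ _ h3
    rw [Finset.card_univ, Fintype.card_fin] at h6
    exact h6
  have h3 := NVP_prod (S := (∅ : Set (MvPolynomial τ k))) (Finset.univ : Finset (Fin v)) _ _
    (fun i _ => CST_E_mul (h1 i) (h2 i))
  rw [Finset.card_univ, Fintype.card_fin] at h3
  have h4 := hSUB ((Fin v × Fin (d + 1)) ⊕ Fin q) τ k (fun s => X (Sum.elim y z s)) L Φ hΦ
  have hren : (rename (Sum.elim y z) Φ : MvPolynomial τ k) =
      aeval (fun s => (X (Sum.elim y z s) : MvPolynomial τ k)) Φ := by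
    have h11 := aeval_rename (Sum.elim y z) (X : τ → MvPolynomial τ k) Φ
    rw [aeval_X_left_apply] at h11
    exact h11
  have h5 : CST_E (∅ : Set (MvPolynomial τ k)) {rename (Sum.elim y z) Φ} L := by
    rw [hren]
    intro l hl _
    exact h4 l hl (by
      rintro s ⟨t, rfl⟩
      exact Or.inl ⟨_, rfl⟩)
  have h6 := CST_E_mul h3 h5
  obtain ⟨l', h7, h8, h9⟩ := h6 [] SLP.nil (fun s hs => absurd hs (Set.notMem_empty s))
  rw [List.append_nil] at h7
  refine ⟨l', h7, h8, ?_⟩
  have h10 := h9 _ (Set.mem_singleton _)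
  rw [List.append_nil] at h10
  exact h10

theorem NVP_deg {v d q D : ℕ} (x : Fin v → τ) (y : Fin v × Fin (d + 1) → τ)
    (z : Fin q → τ) (Φ : MvPolynomial ((Fin v × Fin (d + 1)) ⊕ Fin q) k) (hΦ : Φ.totalDegree ≤ D) :
    (NVP_G x y z Φ).totalDegree ≤ v * ((d + 2) + (d + 1)) + D := by
  have hX : ∀ i : τ, (X i : MvPolynomial τ k).totalDegree ≤ 1 := fun i => by
    rw [totalDegree_X]
  unfold NVP_G
  refine (totalDegree_mul _ _).trans (add_le_add ?_ ((totalDegree_rename_le _ _).trans hΦ))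
  refine (totalDegree_finsetProd _ _).trans ?_
  refine (Finset.sum_le_card_nsmul _ _ ((d + 2) + (d + 1)) (fun i _ => ?_)).trans ?_
  · refine (totalDegree_mul _ _).trans (add_le_add ?_ ?_)
    · unfold NVP_OH
      refine totalDegree_finsetSum_le (fun j _ => ?_)
      have h1 : (∏ j' ∈ Finset.univ.erase j, (1 - (X (y (i, j')) : MvPolynomial τ k))).totalDegree ≤
          d + 1 := by
        refine (totalDegree_finsetProd _ _).trans ?_
        refine (Finset.sum_le_card_nsmul _ _ 1 (fun j' _ => ?_)).trans ?_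
        · refine (totalDegree_sub _ _).trans ?_
          rw [totalDegree_one]
          exact max_le (Nat.zero_le _) (hX _)
        · rw [smul_eq_mul, mul_one]
          refine (Finset.card_le_univ _).trans ?_
          rw [Fintype.card_fin]
      have h2 := hX (y (i, j))
      exact (totalDegree_mul _ _).trans ((add_le_add h2 h1).trans (by omega))
    · refine totalDegree_finsetSum_le (fun j _ => ?_)
      refine (totalDegree_mul _ _).trans ?_
      have h1 := hX (y (i, j))
      have h2 : ((X (x i) : MvPolynomial τ k) ^ (j : ℕ)).totalDegree ≤ (j : ℕ) := by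
        refine (totalDegree_pow _ _).trans ?_
        rw [totalDegree_X, mul_one]
      have := j.2
      omega
  · rw [Finset.card_univ, Fintype.card_fin, smul_eq_mul]

end calc_

section ident

variable {k : Type u} [Field k]

/-- the Boolean vectors of the one-hot vectors -/
def NVP_J {v d : ℕ} (j : Fin v → Fin (d + 1)) : Fin v × Fin (d + 1) → Fin 2 :=
  fun p => if j p.1 = p.2 then 1 else 0

theorem NVP_J_inj {v d : ℕ} : Function.Injective (NVP_J (v := v) (d := d)) := by
  intro j j' h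
  funext i
  have h1 := congrFun h (i, j i)
  unfold NVP_J at h1
  simp only [if_true] at h1
  by_contra hne
  rw [if_neg (fun h2 => hne h2.symm)] at h1
  exact absurd h1 (by decide)

theorem NVP_OH_unit {d : ℕ} (j : Fin (d + 1)) :
    NVP_OH (fun j' : Fin (d + 1) => (((if j = j' then (1 : Fin 2) else 0 : Fin 2) : ℕ) : k)) = 1 := by
  unfold NVP_OH
  rw [Finset.sum_eq_single j]
  · rw [Finset.prod_eq_one]
    · simp
    · intro j' hj'
      have h1 : j ≠ j' := fun h => (Finset.ne_of_mem_erase hj') h.symm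
      simp [h1]
  · intro b _ hb
    have h1 : j ≠ b := fun h => hb h.symm
    simp [h1]
  · intro h
    exact absurd (Finset.mem_univ j) h

theorem NVP_OH_ne {d : ℕ} (a : Fin (d + 1) → Fin 2) (h : NVP_OH (fun j => ((a j : ℕ) : k)) ≠ 0) :
    ∃ j, ∀ j', a j' = if j = j' then 1 else 0 := by
  unfold NVP_OH at h
  obtain ⟨j, -, hj⟩ := Finset.exists_ne_zero_of_sum_ne_zero h
  have h1 := left_ne_zero_of_mul hj
  have h2 := right_ne_zero_of_mul hj
  refine ⟨j, fun j' => ?_⟩
  have hcase : ∀ b : Fin 2, b = 0 ∨ b = 1 := by decide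
  by_cases hjj : j = j'
  · rw [if_pos hjj, ← hjj]
    rcases hcase (a j) with h3 | h3
    · exfalso
      apply h1
      change ((a j : ℕ) : k) = 0
      rw [h3]
      simp
    · exact h3
  · rw [if_neg hjj]
    have h3 := Finset.prod_ne_zero_iff.1 h2 j' (Finset.mem_erase.2 ⟨fun h => hjj h.symm,
      Finset.mem_univ _⟩)
    rcases hcase (a j') with h4 | h4
    · exact h4
    · exfalso
      apply h3
      change (1 : k) - ((a j' : ℕ) : k) = 0
      rw [h4]
      simp

theorem NVP_expand {v d : ℕ} (f : MvPolynomial (Fin v) k) (hd : f.totalDegree ≤ d) :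
    f = ∑ j : Fin v → Fin (d + 1), (∏ i, (X i : MvPolynomial (Fin v) k) ^ (j i : ℕ)) *
      C (MvPolynomial.coeff (Finsupp.equivFunOnFinite.symm fun i => (j i : ℕ)) f) := by
  have hmon : ∀ j : Fin v → Fin (d + 1), (∏ i, (X i : MvPolynomial (Fin v) k) ^ (j i : ℕ)) *
      C (MvPolynomial.coeff (Finsupp.equivFunOnFinite.symm fun i => (j i : ℕ)) f) =
      monomial (Finsupp.equivFunOnFinite.symm fun i => (j i : ℕ))
        (MvPolynomial.coeff (Finsupp.equivFunOnFinite.symm fun i => (j i : ℕ)) f) := by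
    intro j
    rw [monomial_eq, Finsupp.prod_fintype _ _ (fun i => pow_zero _), mul_comm]
    rfl
  ext s
  rw [coeff_sum, Finset.sum_congr rfl (fun j _ => by rw [hmon j, coeff_monomial])]
  by_cases hs : ∀ i, s i ≤ d
  · rw [Finset.sum_eq_single (fun i => (⟨s i, Nat.lt_succ_of_le (hs i)⟩ : Fin (d + 1)))]
    · have e : (Finsupp.equivFunOnFinite.symm fun i =>
          (((⟨s i, Nat.lt_succ_of_le (hs i)⟩ : Fin (d + 1)) : ℕ)) : Fin v →₀ ℕ) = s := by
        ext i
        rfl
      rw [e, if_pos rfl]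
    · intro j _ hj
      rw [if_neg]
      rintro rfl
      apply hj
      funext i
      rfl
    · intro h
      exact absurd (Finset.mem_univ _) h
  · push Not at hs
    obtain ⟨i, hi⟩ := hs
    have h0 : MvPolynomial.coeff s f = 0 := by
      by_contra hne
      have h1 := le_totalDegree (mem_support_iff.2 hne)
      have h2 : s i ≤ s.sum fun _ e => e := by
        by_cases h3 : s i = 0
        · rw [h3]
          exact Nat.zero_le _
        · exact Finset.single_le_sum (f := fun i => s i) (fun _ _ => Nat.zero_le _)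
            (Finsupp.mem_support_iff.2 h3)
      omega
    rw [h0, eq_comm]
    refine Finset.sum_eq_zero (fun j _ => ?_)
    rw [if_neg]
    rintro rfl
    have h4 := (j i).2
    have h5 : (Finsupp.equivFunOnFinite.symm fun i => (j i : ℕ) : Fin v →₀ ℕ) i = (j i : ℕ) := rfl
    omega

theorem NVP_id {v d q : ℕ} (f : MvPolynomial (Fin v) k) (hd : f.totalDegree ≤ d)
    (Φ : MvPolynomial ((Fin v × Fin (d + 1)) ⊕ Fin q) k)
    (hΦ : ∀ e : Fin v → ℕ, (∀ i, e i ≤ d) →
      MvPolynomial.coeff (Finsupp.equivFunOnFinite.symm e) f = ∑ z : Fin q → Fin 2,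
        MvPolynomial.eval (Sum.elim (oh k v d e) fun i => ((z i : ℕ) : k)) Φ) :
    f = ∑ p : (Fin v × Fin (d + 1) → Fin 2) × (Fin q → Fin 2),
      (∏ i, (C (NVP_OH (fun j => ((p.1 (i, j) : ℕ) : k))) *
        ∑ j : Fin (d + 1), C ((p.1 (i, j) : ℕ) : k) * (X i : MvPolynomial (Fin v) k) ^ (j : ℕ))) *
      C (MvPolynomial.eval (Sum.elim (fun s => ((p.1 s : ℕ) : k)) fun i => ((p.2 i : ℕ) : k)) Φ) := by
  rw [Fintype.sum_prod_type]
  conv_lhs => rw [NVP_expand f hd]
  refine Fintype.sum_of_injective NVP_J NVP_J_inj _ _ ?_ ?_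
  · intro y hy
    refine Finset.sum_eq_zero (fun z _ => ?_)
    have h1 : ∃ i, NVP_OH (fun j => ((y (i, j) : ℕ) : k)) = 0 := by
      by_contra hcon
      push Not at hcon
      choose j hj using fun i => NVP_OH_ne (fun j => y (i, j)) (hcon i)
      apply hy
      refine ⟨j, ?_⟩
      funext p
      unfold NVP_J
      exact (hj p.1 p.2).symm
    obtain ⟨i, hi⟩ := h1
    rw [Finset.prod_eq_zero (Finset.mem_univ i) (by
      change C (NVP_OH (fun j => ((y (i, j) : ℕ) : k))) * _ = 0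
      rw [hi, C_0, zero_mul]), zero_mul]
  · intro j
    have h1 : ∀ i : Fin v, C (NVP_OH (fun j' => ((NVP_J j (i, j') : ℕ) : k))) *
        ∑ j' : Fin (d + 1), C ((NVP_J j (i, j') : ℕ) : k) *
          (X i : MvPolynomial (Fin v) k) ^ (j' : ℕ) = X i ^ (j i : ℕ) := by
      intro i
      have h2 : NVP_OH (fun j' => ((NVP_J j (i, j') : ℕ) : k)) = 1 := NVP_OH_unit (j i)
      rw [h2, C_1, one_mul, Finset.sum_eq_single (j i)]
      · unfold NVP_J
        simp
      · intro b _ hb
        unfold NVP_J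
        rw [if_neg (fun h => hb h.symm)]
        simp
      · intro h
        exact absurd (Finset.mem_univ _) h
    change _ = ∑ z : Fin q → Fin 2, (∏ i, (C (NVP_OH (fun j' => ((NVP_J j (i, j') : ℕ) : k))) *
        ∑ j' : Fin (d + 1), C ((NVP_J j (i, j') : ℕ) : k) *
          (X i : MvPolynomial (Fin v) k) ^ (j' : ℕ))) *
      C (MvPolynomial.eval (Sum.elim (fun s => ((NVP_J j s : ℕ) : k)) fun i => ((z i : ℕ) : k)) Φ)
    rw [Finset.prod_congr rfl (fun i _ => h1 i), ← Finset.mul_sum, ← map_sum]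
    congr 2
    rw [hΦ (fun i => (j i : ℕ)) (fun i => Nat.le_of_lt_succ (j i).2)]
    have h3 : (fun s => ((NVP_J j s : ℕ) : k)) = oh k v d (fun i => (j i : ℕ)) := by
      funext s
      unfold NVP_J oh
      by_cases h : j s.1 = s.2
      · rw [if_pos h, if_pos (congrArg Fin.val h)]
        simp
      · rw [if_neg h, if_neg (fun h' => h (Fin.ext h'))]
        simp
    rw [h3]

theorem NVP_aeval {τ : Type} {v d q : ℕ} (x : Fin v → τ) (y : Fin v × Fin (d + 1) → τ) (z : Fin q → τ)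
    (Φ : MvPolynomial ((Fin v × Fin (d + 1)) ⊕ Fin q) k) (A : τ → MvPolynomial (Fin v) k)
    (yv : Fin v × Fin (d + 1) → k) (zv : Fin q → k) (hx : ∀ i, A (x i) = X i)
    (hy : ∀ s, A (y s) = C (yv s)) (hz : ∀ i, A (z i) = C (zv i)) :
    aeval A (NVP_G x y z Φ) = (∏ i, (C (NVP_OH (fun j => yv (i, j))) *
        ∑ j : Fin (d + 1), C (yv (i, j)) * (X i : MvPolynomial (Fin v) k) ^ (j : ℕ))) *
      C (MvPolynomial.eval (Sum.elim yv zv) Φ) := by
  unfold NVP_G
  rw [map_mul, map_prod]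
  congr 1
  · refine Finset.prod_congr rfl (fun i _ => ?_)
    rw [map_mul]
    congr 1
    · unfold NVP_OH
      rw [map_sum, map_sum]
      refine Finset.sum_congr rfl (fun j _ => ?_)
      rw [map_mul, map_mul, map_prod, map_prod, aeval_X, hy]
      congr 1
      refine Finset.prod_congr rfl (fun j' _ => ?_)
      rw [map_sub, map_sub, map_one, map_one, aeval_X, hy]
    · rw [map_sum]
      refine Finset.sum_congr rfl (fun j _ => ?_)
      rw [map_mul, map_pow, aeval_X, aeval_X, hy, hx]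
  · rw [aeval_rename]
    have h1 : A ∘ Sum.elim y z = fun s => C (Sum.elim yv zv s) := by
      funext s
      rcases s with s | s
      · exact hy s
      · exact hz s
    rw [h1]
    have h2 := aeval_algebraMap_apply (MvPolynomial (Fin v) k) (Sum.elim yv zv) Φ
    have h3 : (aeval (Sum.elim yv zv)) Φ = eval (Sum.elim yv zv) Φ := rfl
    rw [h3] at h2
    exact h2

/-- the enumeration of the Boolean variables -/
def NVP_E (v d q : ℕ) : (Fin v × Fin (d + 1)) ⊕ Fin q ≃ Fin (v * (d + 1) + q) :=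
  (Equiv.sumCongr finProdFinEquiv (Equiv.refl _)).trans finSumFinEquiv

/-- the polynomial in the enumerated variables -/
noncomputable def NVP_g (v d q : ℕ) (Φ : MvPolynomial ((Fin v × Fin (d + 1)) ⊕ Fin q) k) :
    MvPolynomial (Fin (v + (v * (d + 1) + q))) k :=
  NVP_G (fun i => Fin.castAdd _ i) (fun s => Fin.natAdd _ (NVP_E v d q (Sum.inl s)))
    (fun i => Fin.natAdd _ (NVP_E v d q (Sum.inr i))) Φ

theorem NVP_g_sum {v d q : ℕ} (f : MvPolynomial (Fin v) k) (hd : f.totalDegree ≤ d)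
    (Φ : MvPolynomial ((Fin v × Fin (d + 1)) ⊕ Fin q) k)
    (hΦ : ∀ e : Fin v → ℕ, (∀ i, e i ≤ d) →
      MvPolynomial.coeff (Finsupp.equivFunOnFinite.symm e) f = ∑ z : Fin q → Fin 2,
        MvPolynomial.eval (Sum.elim (oh k v d e) fun i => ((z i : ℕ) : k)) Φ) :
    f = ∑ e : Fin (v * (d + 1) + q) → Fin 2,
      aeval (Fin.append (fun i : Fin v => (X i : MvPolynomial (Fin v) k))
        (fun j : Fin (v * (d + 1) + q) => C ((e j : ℕ) : k))) (NVP_g v d q Φ) := by
  refine (NVP_id f hd Φ hΦ).trans ?_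
  symm
  refine Fintype.sum_equiv ((Equiv.arrowCongr (NVP_E v d q).symm (Equiv.refl (Fin 2))).trans
      (Equiv.sumArrowEquivProdArrow _ _ _)) _ _ (fun e => ?_)
  exact NVP_aeval _ _ _ _ _ (fun s => ((e (NVP_E v d q (Sum.inl s)) : ℕ) : k))
      (fun i => ((e (NVP_E v d q (Sum.inr i)) : ℕ) : k)) (fun i => Fin.append_left _ _ i)
      (fun s => Fin.append_right _ _ _) (fun i => Fin.append_right _ _ _)

theorem NVP_g_deg {v d q D : ℕ} (Φ : MvPolynomial ((Fin v × Fin (d + 1)) ⊕ Fin q) k)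
    (hΦ : Φ.totalDegree ≤ D) : (NVP_g v d q Φ).totalDegree ≤ v * ((d + 2) + (d + 1)) + D :=
  NVP_deg _ _ _ Φ hΦ

theorem NVP_g_cost (hSUB : SUB_stmt.{u}) {v d q L : ℕ}
    (Φ : MvPolynomial ((Fin v × Fin (d + 1)) ⊕ Fin q) k) (hΦ : ComputedIn Φ L) :
    complexity (NVP_g v d q Φ) ≤
      v * (((d + 1) * (3 * (d + 1) + 2) + (d + 1) * (d + 2) + 1) + 1) + L + 1 :=
  Nat.sInf_le (NVP_cost hSUB _ _ _ Φ hΦ)

end ident

theorem NVP (hSUB : SUB_stmt.{u}) (hPBD : PBD_stmt) : NVP_stmt.{u} := by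
  intro k _ F q hF hq hNF
  obtain ⟨hc, hm, ha, hmu, -⟩ := hPBD
  choose M L D hMq hLq hDq hNF' using hNF
  have hMb : PolyBdd M := hm _ _ hMq hq
  have hv : PolyBdd F.v := hF.1
  have hd : PolyBdd fun n => (F.f n).totalDegree := hF.2
  have h1 := ha _ _ hd (hc 1)
  have h2 := ha _ _ (hmu _ _ (hc 3) h1) (hc 2)
  have h3 := ha _ _ hd (hc 2)
  have hM : PolyBdd fun n => F.v n * ((F.f n).totalDegree + 1) + M n := ha _ _ (hmu _ _ hv h1) hMb
  have hD : PolyBdd fun n => F.v n * (((F.f n).totalDegree + 2) + ((F.f n).totalDegree + 1)) + q n :=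
    ha _ _ (hmu _ _ hv (ha _ _ h3 h1)) hq
  have hL : PolyBdd fun n => F.v n * ((((F.f n).totalDegree + 1) * (3 * ((F.f n).totalDegree + 1) + 2) +
      ((F.f n).totalDegree + 1) * ((F.f n).totalDegree + 2) + 1) + 1) + q n + 1 :=
    ha _ _ (ha _ _ (hmu _ _ hv (ha _ _ (ha _ _ (ha _ _ (hmu _ _ h1 h2) (hmu _ _ h1 h3))
        (hc 1)) (hc 1))) hq) (hc 1)
  have hex : ∀ n, ∃ g : MvPolynomial (Fin (F.v n + (F.v n * ((F.f n).totalDegree + 1) + M n))) k,
      g.totalDegree ≤ F.v n * (((F.f n).totalDegree + 2) + ((F.f n).totalDegree + 1)) + q n ∧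
      complexity g ≤ F.v n * ((((F.f n).totalDegree + 1) * (3 * ((F.f n).totalDegree + 1) + 2) +
        ((F.f n).totalDegree + 1) * ((F.f n).totalDegree + 2) + 1) + 1) + q n + 1 ∧
      F.f n = ∑ e : Fin (F.v n * ((F.f n).totalDegree + 1) + M n) → Fin 2,
        aeval (Fin.append (fun i : Fin (F.v n) => (X i : MvPolynomial (Fin (F.v n)) k))
          (fun j : Fin (F.v n * ((F.f n).totalDegree + 1) + M n) => C ((e j : ℕ) : k))) g := by
    intro n
    obtain ⟨Φ, hΦ1, hΦ2, hΦ3⟩ := hNF' n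
    refine ⟨NVP_g _ _ _ Φ, (NVP_g_deg Φ hΦ2).trans (Nat.add_le_add_left (hDq n) _),
      (NVP_g_cost hSUB Φ hΦ1).trans ?_, NVP_g_sum (F.f n) le_rfl Φ hΦ3⟩
    exact Nat.add_le_add_right (Nat.add_le_add_left (hLq n) _) 1
  choose g hg1 hg2 hg3 using hex
  exact ⟨hF, fun n => F.v n * ((F.f n).totalDegree + 1) + M n, hM, g,
    ⟨⟨ha _ _ hv hM, hm _ _ hg1 hD⟩, hm _ _ hg2 hL⟩, hg3⟩

end Pool.Agent.helper92.VT
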